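import Pool.Agent.V1161.CM.WT2

set_option autoImplicit false

/-!
# The k-level correlation conjecture on average along real powers

No hypothesis is assumed.  Let `c_1, ..., c_k > 0` be real numbers that are not integers, and
`h_i, κ_i > 0`.  For `1 ≤ m_i ≤ M` consider the `(k+1)`-tuples of zeros for which the normalised
differences of the ordinates are in the box with centre `(h_1 m_1 ^ c_1, ..., h_k m_k ^ c_k)` and
sides `2 κ_i`.  The mean of their number over all `m` is `(∏ 2 κ_i + o(1)) (T log T)/2π`, the value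
predicted by the sine kernel determinant, if first `T` and then `M` tends to infinity.  More
generally the first zero can be taken from an arbitrary set of zeros (uniformly), and the powers can
be replaced by arbitrary sequences whose exponential sums are `o(M)`, uniformly on compact sets of
positive frequencies.
-/

open Filter Topology

namespace Pool.Agent.Results.MP_67227b_nt.KLevelRealPowers

/-- the nontrivial zeros of `ζ` with ordinate in `(0, T]`, on or off the critical line -/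
def ZZ (T : ℝ) : Set ℂ := {s : ℂ | riemannZeta s = 0 ∧ 0 < s.re ∧ s.re < 1 ∧ 0 < s.im ∧ s.im ≤ T}

/-- multiplicity of `s` as a zero of the Riemann zeta function (order of vanishing at `s`) -/
noncomputable def zmult (s : ℂ) : ℕ := analyticOrderNatAt riemannZeta s

/-- the tuples `(ρ, ρ_1, ..., ρ_k)` of zeros with ordinates in `(0, T]` such that the normalised
difference `(γ_i - γ) log T / 2π` of the ordinates is in `[y i - κ i, y i + κ i]` for all `i` -/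
def tuples {k : ℕ} (T : ℝ) (κ y : Fin k → ℝ) : Set (ℂ × (Fin k → ℂ)) :=
  {p : ℂ × (Fin k → ℂ) | p.1 ∈ ZZ T ∧ ∀ i, p.2 i ∈ ZZ T ∧
    |((p.2 i).im - p.1.im) * Real.log T / (2 * Real.pi) - y i| ≤ κ i}

/-- the sum of `w ρ`, times the multiplicities of `ρ_1, ..., ρ_k`, over these tuples; for `w` the
multiplicity this is the number of the tuples, with multiplicity -/
noncomputable def corr {k : ℕ} (T : ℝ) (κ y : Fin k → ℝ) (w : ℂ → ℝ) : ℝ :=
  ∑ᶠ p ∈ tuples T κ y, w p.1 * ∏ i, (zmult (p.2 i) : ℝ)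

/-- the sum of `w` over the zeros with ordinate in `(0, T]` -/
noncomputable def total (T : ℝ) (w : ℂ → ℝ) : ℝ := ∑ᶠ s ∈ ZZ T, w s

/-- the asymptotic number `(T log T) / 2π` of the zeros with ordinate in `(0, T]` -/
noncomputable def N₀ (T : ℝ) : ℝ := T * Real.log T / (2 * Real.pi)

/-- the exponential sums of the sequence `b` are `o(M)`, uniformly on compact sets of positive
frequencies -/
def SmallSums (b : ℕ → ℝ) : Prop := ∀ η R ε : ℝ, 0 < η → 0 < ε → ∃ M₀ : ℕ, ∀ M : ℕ, M₀ ≤ M →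
  ∀ β : ℝ, η ≤ β → β ≤ R →
    ‖∑ m ∈ Finset.range M, Complex.exp (2 * Real.pi * Complex.I * ((β * b m : ℝ) : ℂ))‖ ≤ ε * M

open Pool.Agent.TH850.UV (mS mS_nonneg)
open Pool.Agent.V11270.KC (Z0 mem_Z0)
open Pool.Agent.V1161.CM (dl dl_pos cc CA CA_nonneg weights Hexp_pow dl_count)

lemma ZZ_eq (T : ℝ) : ZZ T = (Z0 T : Set ℂ) := by
  ext s
  rw [Finset.mem_coe, mem_Z0]
  unfold ZZ
  rw [Set.mem_ofPred_eq]
  tauto

lemma mem_ZZ {T : ℝ} {s : ℂ} : s ∈ ZZ T ↔ s ∈ Z0 T := by rw [ZZ_eq, Finset.mem_coe]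

/-- the set of the zeros is finite -/
theorem ZZ_finite (T : ℝ) : (ZZ T).Finite := by
  rw [ZZ_eq]
  exact Finset.finite_toSet _

lemma total_eq (T : ℝ) (w : ℂ → ℝ) : total T w = ∑ s ∈ Z0 T, w s := by
  unfold total
  rw [ZZ_eq, finsum_mem_coe_finset]

lemma cond_iff {T : ℝ} (hT : 10 ≤ T) (x x' y κ : ℝ) :
    |(x' - x) * Real.log T / (2 * Real.pi) - y| ≤ κ ↔ |x' - (x + y * dl T)| ≤ κ * dl T := by
  have hL : 0 < Real.log T := Real.log_pos (by linarith)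
  have hpi := Real.pi_pos
  have hd := dl_pos hT
  have e : x' - (x + y * dl T) = ((x' - x) * Real.log T / (2 * Real.pi) - y) * dl T := by
    unfold dl
    field_simp
    ring
  rw [e, abs_mul, abs_of_pos hd]
  exact (mul_le_mul_iff_left₀ hd).symm

lemma tuples_eq {k : ℕ} {T : ℝ} (hT : 10 ≤ T) (κ y : Fin k → ℝ) : tuples T κ y =
    (((Z0 T ×ˢ Fintype.piFinset (fun _ : Fin k => Z0 T)).filter (fun p =>
      ∀ i, |(p.2 i).im - (p.1.im + y i * dl T)| ≤ κ i * dl T) :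
        Finset (ℂ × (Fin k → ℂ))) : Set (ℂ × (Fin k → ℂ))) := by
  classical
  ext p
  rw [Finset.mem_coe, Finset.mem_filter, Finset.mem_product, Fintype.mem_piFinset]
  unfold tuples
  rw [Set.mem_ofPred_eq, mem_ZZ, and_assoc, forall_and]
  refine and_congr_right fun _ => and_congr (forall_congr' fun i => mem_ZZ) ?_
  exact forall_congr' fun i => cond_iff hT _ _ _ _

/-- the sets of tuples are finite -/
theorem tuples_finite {k : ℕ} (T : ℝ) (κ y : Fin k → ℝ) : (tuples T κ y).Finite := by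
  classical
  refine (Finset.finite_toSet (Z0 T ×ˢ Fintype.piFinset (fun _ : Fin k => Z0 T))).subset ?_
  rintro p ⟨h1, h2⟩
  rw [Finset.mem_coe, Finset.mem_product, Fintype.mem_piFinset]
  exact ⟨mem_ZZ.1 h1, fun i => mem_ZZ.1 (h2 i).1⟩

lemma corr_eq {k : ℕ} {T : ℝ} (hT : 10 ≤ T) (κ y : Fin k → ℝ) (w : ℂ → ℝ) :
    corr T κ y w = ∑ s ∈ Z0 T, w s * ∏ i, cc T (κ i) (s.im + y i * dl T) := by
  classical
  unfold corr
  rw [tuples_eq hT, finsum_mem_coe_finset, Finset.sum_filter, Finset.sum_product]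
  refine Finset.sum_congr rfl fun s _ => ?_
  unfold cc
  rw [Finset.prod_univ_sum, Finset.mul_sum]
  refine Finset.sum_congr rfl fun f _ => ?_
  show (if ∀ i, |(f i).im - (s.im + y i * dl T)| ≤ κ i * dl T then
    w s * ∏ i, (zmult (f i) : ℝ) else 0) = _
  by_cases h : ∀ i, |(f i).im - (s.im + y i * dl T)| ≤ κ i * dl T
  · rw [if_pos h]
    congr 1
    refine Finset.prod_congr rfl fun i _ => ?_
    rw [if_pos (h i), mul_one]
    rfl
  · rw [if_neg h]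
    obtain ⟨i, hi⟩ := not_forall.1 h
    rw [Finset.prod_eq_zero (Finset.mem_univ i), mul_zero]
    rw [if_neg hi, mul_zero]

lemma mean_eq {k : ℕ} {T : ℝ} (hT : 10 ≤ T) (κ : Fin k → ℝ) (b : Fin k → ℕ → ℝ) (M : ℕ)
    (w : ℂ → ℝ) : 1 / (M : ℝ) ^ k * ∑ m : Fin k → Fin M, corr T κ (fun i => b i (m i)) w =
      ∑ s ∈ Z0 T, w s * ∏ i, CA T (κ i) (b i) M s.im := by
  classical
  have h1 : ∀ s : ℂ, ∏ i, CA T (κ i) (b i) M s.im = 1 / (M : ℝ) ^ k *
      ∑ m : Fin k → Fin M, ∏ i, cc T (κ i) (s.im + b i (m i) * dl T) := by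
    intro s
    unfold CA
    rw [Finset.prod_mul_distrib, Finset.prod_const, Finset.card_univ, Fintype.card_fin]
    have h2 : ∏ i, ∑ m ∈ Finset.range M, cc T (κ i) (s.im + b i m * dl T) =
        ∑ m : Fin k → Fin M, ∏ i, cc T (κ i) (s.im + b i (m i) * dl T) := by
      have h3 : ∀ i, ∑ m ∈ Finset.range M, cc T (κ i) (s.im + b i m * dl T) =
          ∑ m : Fin M, cc T (κ i) (s.im + b i m * dl T) := fun i =>
        Finset.sum_range (fun m => cc T (κ i) (s.im + b i m * dl T))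
      simp_rw [h3]
      rw [Finset.prod_univ_sum, Fintype.piFinset_univ]
    rw [h2, one_div_pow]
  simp_rw [h1]
  have h4 : ∀ m : Fin k → Fin M, corr T κ (fun i => b i (m i)) w =
      ∑ s ∈ Z0 T, w s * ∏ i, cc T (κ i) (s.im + b i (m i) * dl T) := fun m => corr_eq hT _ _ _
  simp_rw [h4]
  rw [Finset.sum_comm, Finset.mul_sum]
  refine Finset.sum_congr rfl fun s _ => ?_
  rw [← Finset.mul_sum]
  ring

lemma N₀_eq {T : ℝ} (hT : 10 ≤ T) : T / dl T = N₀ T := by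
  have hL : Real.log T ≠ 0 := (Real.log_pos (by linarith)).ne'
  have hpi := Real.pi_ne_zero
  unfold N₀ dl
  field_simp

/-- general sequences and weights -/
theorem general {k : ℕ} (κ : Fin k → ℝ) (b : Fin k → ℕ → ℝ) (hκ : ∀ i, 0 < κ i)
    (hb : ∀ i, SmallSums (b i)) (ε : ℝ) (hε : 0 < ε) :
    ∃ M₀ : ℕ, ∀ M : ℕ, M₀ ≤ M → ∃ T₀ : ℝ, 10 ≤ T₀ ∧ ∀ T : ℝ, T₀ ≤ T → ∀ w : ℂ → ℝ,
      (∀ s ∈ ZZ T, 0 ≤ w s ∧ w s ≤ zmult s) →
      |1 / (M : ℝ) ^ k * ∑ m : Fin k → Fin M, corr T κ (fun i => b i (m i)) w -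
        (∏ i, 2 * κ i) * total T w| ≤ ε * N₀ T := by
  obtain ⟨M₀, hM₀, h⟩ := weights κ b hκ hb ε hε
  refine ⟨M₀, fun M hM => ?_⟩
  obtain ⟨T₀, hT₀, h1⟩ := h M hM
  refine ⟨T₀, hT₀, fun T hT w hw => ?_⟩
  have hT10 : 10 ≤ T := hT₀.trans hT
  have h2 := h1 T hT w (fun s hs => (hw s (mem_ZZ.2 hs)).1) (fun s hs => (hw s (mem_ZZ.2 hs)).2)
  rw [mean_eq hT10, total_eq, ← N₀_eq hT10]
  exact h2

/-- all zeros -/
theorem all_zeros {k : ℕ} (κ : Fin k → ℝ) (b : Fin k → ℕ → ℝ) (hκ : ∀ i, 0 < κ i)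
    (hb : ∀ i, SmallSums (b i)) (ε : ℝ) (hε : 0 < ε) :
    ∃ M₀ : ℕ, ∀ M : ℕ, M₀ ≤ M → ∃ T₀ : ℝ, 10 ≤ T₀ ∧ ∀ T : ℝ, T₀ ≤ T →
      |1 / (M : ℝ) ^ k * ∑ m : Fin k → Fin M,
        corr T κ (fun i => b i (m i)) (fun s => (zmult s : ℝ)) / N₀ T - ∏ i, 2 * κ i| ≤ ε := by
  obtain ⟨P, hP⟩ : ∃ P : ℝ, P = ∏ i, 2 * κ i := ⟨_, rfl⟩
  have hP0 : 0 ≤ P := by
    rw [hP]
    exact Finset.prod_nonneg fun i _ => by have := hκ i; positivity
  obtain ⟨M₀, h⟩ := general κ b hκ hb (ε / 2) (by positivity)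
  obtain ⟨T1, hT1, h1⟩ := dl_count (ε := ε / (2 * (P + 1))) (by positivity)
  refine ⟨M₀, fun M hM => ?_⟩
  obtain ⟨T₀, hT₀, h2⟩ := h M hM
  refine ⟨max T₀ T1, hT₀.trans (le_max_left _ _), fun T hT => ?_⟩
  have hT10 : 10 ≤ T := hT₀.trans ((le_max_left _ _).trans hT)
  have hd := dl_pos hT10
  have g1 := h2 T ((le_max_left _ _).trans hT) (fun s => (zmult s : ℝ))
    fun s _ => ⟨Nat.cast_nonneg _, le_rfl⟩
  have g2 := h1 T ((le_max_right _ _).trans hT)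
  have hN : N₀ T = T / dl T := (N₀_eq hT10).symm
  have hN0 : 0 < N₀ T := by rw [hN]; positivity
  rw [← hP] at g1 ⊢
  have g3 : |total T (fun s => (zmult s : ℝ)) - N₀ T| ≤ ε / (2 * (P + 1)) * N₀ T := by
    have e1 : total T (fun s => (zmult s : ℝ)) = ∑ s ∈ Z0 T, mS s := by
      rw [total_eq]
      rfl
    have e2 : dl T * (∑ s ∈ Z0 T, mS s) - T =
        dl T * (total T (fun s => (zmult s : ℝ)) - N₀ T) := by
      rw [e1, hN]
      field_simp
    rw [e2, abs_mul, abs_of_pos hd] at g2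
    have e3 : ε / (2 * (P + 1)) * T = dl T * (ε / (2 * (P + 1)) * N₀ T) := by
      rw [hN]
      field_simp
    rw [e3] at g2
    exact le_of_mul_le_mul_left g2 hd
  obtain ⟨Y, hY⟩ : ∃ Y : ℝ, Y = total T (fun s => (zmult s : ℝ)) := ⟨_, rfl⟩
  rw [← hY] at g1 g3
  have e4 : 1 / (M : ℝ) ^ k * ∑ m : Fin k → Fin M,
      corr T κ (fun i => b i (m i)) (fun s => (zmult s : ℝ)) / N₀ T - P =
      ((1 / (M : ℝ) ^ k * ∑ m : Fin k → Fin M,
        corr T κ (fun i => b i (m i)) (fun s => (zmult s : ℝ)) - P * Y) +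
          P * (Y - N₀ T)) / N₀ T := by
    rw [← Finset.sum_div]
    field_simp
    ring
  rw [e4, abs_div, abs_of_pos hN0, div_le_iff₀ hN0]
  refine (abs_add_le _ _).trans ?_
  rw [abs_mul, abs_of_nonneg hP0]
  have g4 := mul_le_mul_of_nonneg_left g3 hP0
  have g5 : P * (ε / (2 * (P + 1)) * N₀ T) ≤ ε / 2 * N₀ T := by
    rw [← mul_assoc]
    refine mul_le_mul_of_nonneg_right ?_ hN0.le
    rw [mul_div_assoc', div_le_div_iff₀ (by positivity) (by norm_num)]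
    nlinarith
  linarith

/-- almost every zero -/
theorem almost_every (κ : ℝ) (b : ℕ → ℝ) (hκ : 0 < κ) (hb : SmallSums b) (ε : ℝ) (hε : 0 < ε) :
    ∃ M₀ : ℕ, ∀ M : ℕ, M₀ ≤ M → ∃ T₀ : ℝ, 10 ≤ T₀ ∧ ∀ T : ℝ, T₀ ≤ T →
      total T (fun s => if ε < |1 / (M : ℝ) * ∑ m ∈ Finset.range M,
          total T (fun s' => if |(s'.im - s.im) * Real.log T / (2 * Real.pi) - b m| ≤ κ then
            (zmult s' : ℝ) else 0) - 2 * κ| then (zmult s : ℝ) else 0) ≤ ε * N₀ T := by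
  classical
  obtain ⟨M₀, hM₀, h⟩ := weights (k := 1) (fun _ => κ) (fun _ => b) (fun _ => hκ) (fun _ => hb)
    (ε ^ 2 / 2) (by positivity)
  refine ⟨M₀, fun M hM => ?_⟩
  obtain ⟨T₀, hT₀, h1⟩ := h M hM
  refine ⟨T₀, hT₀, fun T hT => ?_⟩
  have hT10 : 10 ≤ T := hT₀.trans hT
  have hd := dl_pos hT10
  have hN0 : 0 < N₀ T := by rw [← N₀_eq hT10]; positivity
  have e1 : ∀ s : ℂ, 1 / (M : ℝ) * ∑ m ∈ Finset.range M,
      total T (fun s' => if |(s'.im - s.im) * Real.log T / (2 * Real.pi) - b m| ≤ κ then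
        (zmult s' : ℝ) else 0) = CA T κ b M s.im := by
    intro s
    unfold CA
    congr 1
    refine Finset.sum_congr rfl fun m _ => ?_
    rw [total_eq]
    unfold cc
    refine Finset.sum_congr rfl fun s' _ => ?_
    by_cases hc : |(s'.im - s.im) * Real.log T / (2 * Real.pi) - b m| ≤ κ
    · rw [if_pos hc, if_pos ((cond_iff hT10 _ _ _ _).1 hc), mul_one]
      rfl
    · rw [if_neg hc, if_neg (fun hc' => hc ((cond_iff hT10 _ _ _ _).2 hc')), mul_zero]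
  simp_rw [e1]
  rw [total_eq]
  obtain ⟨w1, hw1⟩ : ∃ w1 : ℂ → ℝ, w1 = fun s => if ε < CA T κ b M s.im - 2 * κ then
    (zmult s : ℝ) else 0 := ⟨_, rfl⟩
  obtain ⟨w2, hw2⟩ : ∃ w2 : ℂ → ℝ, w2 = fun s => if CA T κ b M s.im - 2 * κ < -ε then
    (zmult s : ℝ) else 0 := ⟨_, rfl⟩
  have hz : ∀ s : ℂ, 0 ≤ (zmult s : ℝ) := fun s => Nat.cast_nonneg _
  have a1 : ∀ s, 0 ≤ w1 s ∧ w1 s ≤ mS s := by
    intro s
    rw [hw1]
    beta_reduce
    split_ifs
    · exact ⟨hz s, le_rfl⟩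
    · exact ⟨le_rfl, hz s⟩
  have a2 : ∀ s, 0 ≤ w2 s ∧ w2 s ≤ mS s := by
    intro s
    rw [hw2]
    beta_reduce
    split_ifs
    · exact ⟨hz s, le_rfl⟩
    · exact ⟨le_rfl, hz s⟩
  have g1 := h1 T hT w1 (fun s _ => (a1 s).1) (fun s _ => (a1 s).2)
  have g2 := h1 T hT w2 (fun s _ => (a2 s).1) (fun s _ => (a2 s).2)
  simp only [Finset.univ_unique, Finset.prod_singleton] at g1 g2
  rw [abs_le, N₀_eq hT10] at g1 g2
  have b1 : ε * ∑ s ∈ Z0 T, w1 s ≤ ∑ s ∈ Z0 T, w1 s * CA T κ b M s.im -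
      2 * κ * ∑ s ∈ Z0 T, w1 s := by
    rw [Finset.mul_sum, Finset.mul_sum, ← Finset.sum_sub_distrib]
    refine Finset.sum_le_sum fun s _ => ?_
    by_cases hc : ε < CA T κ b M s.im - 2 * κ
    · have := mul_le_mul_of_nonneg_left hc.le (a1 s).1
      linarith
    · have e : w1 s = 0 := by rw [hw1]; exact if_neg hc
      rw [e]
      simp
  have b2 : ε * ∑ s ∈ Z0 T, w2 s ≤ 2 * κ * ∑ s ∈ Z0 T, w2 s -
      ∑ s ∈ Z0 T, w2 s * CA T κ b M s.im := by
    rw [Finset.mul_sum, Finset.mul_sum, ← Finset.sum_sub_distrib]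
    refine Finset.sum_le_sum fun s _ => ?_
    by_cases hc : CA T κ b M s.im - 2 * κ < -ε
    · have := mul_le_mul_of_nonneg_left hc.le (a2 s).1
      linarith
    · have e : w2 s = 0 := by rw [hw2]; exact if_neg hc
      rw [e]
      simp
  have c1 : ∑ s ∈ Z0 T, w1 s ≤ ε / 2 * N₀ T := by
    have : ε * ∑ s ∈ Z0 T, w1 s ≤ ε * (ε / 2 * N₀ T) := by
      have e : ε * (ε / 2 * N₀ T) = ε ^ 2 / 2 * N₀ T := by ring
      rw [e]
      linarith [g1.2]
    exact le_of_mul_le_mul_left this hε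
  have c2 : ∑ s ∈ Z0 T, w2 s ≤ ε / 2 * N₀ T := by
    have : ε * ∑ s ∈ Z0 T, w2 s ≤ ε * (ε / 2 * N₀ T) := by
      have e : ε * (ε / 2 * N₀ T) = ε ^ 2 / 2 * N₀ T := by ring
      rw [e]
      linarith [g2.1]
    exact le_of_mul_le_mul_left this hε
  have c3 : ∑ s ∈ Z0 T, (if ε < |CA T κ b M s.im - 2 * κ| then (zmult s : ℝ) else 0) ≤
      ∑ s ∈ Z0 T, (w1 s + w2 s) := by
    refine Finset.sum_le_sum fun s _ => ?_
    by_cases hc : ε < |CA T κ b M s.im - 2 * κ|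
    · rw [if_pos hc]
      rcases lt_abs.1 hc with h5 | h5
      · have e : w1 s = (zmult s : ℝ) := by rw [hw1]; exact if_pos h5
        rw [e]
        linarith [(a2 s).1]
      · have e : w2 s = (zmult s : ℝ) := by
          rw [hw2]
          exact if_pos (show CA T κ b M s.im - 2 * κ < -ε by linarith)
        rw [e]
        linarith [(a1 s).1]
    · rw [if_neg hc]
      linarith [(a1 s).1, (a2 s).1]
  rw [Finset.sum_add_distrib] at c3
  linarith

/-- **The k-level correlation conjecture on average along real powers.**  No hypothesis is assumed.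
(1) Let `k` be a natural number, `c_i > 0` not integers, `h_i, κ_i > 0` (`i = 1, ..., k`).  For every
`ε > 0`, all large `M` and all `T ≥ T₀(M)`, the mean over all `1 ≤ m_1, ..., m_k ≤ M` of the number
(with multiplicity) of the `(k+1)`-tuples of zeros with differences in the box with centre
`(h_i m_i ^ c_i)` and sides `2 κ_i`, divided by `(T log T)/2π`, differs from `∏ 2 κ_i` by at most
`ε`.
(2) The same for all sequences with small exponential sums, with an arbitrary weight `w ρ` between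
`0` and the multiplicity at the first zero `ρ` (uniformly in `w`): the mean is the product of
`∏ 2 κ_i` and of the sum of `w`, up to `ε (T log T)/2π`.
(3) For all zeros `ρ` outside a set of at most `ε (T log T)/2π` zeros (with multiplicity), the mean
over `m < M` of the number of the zeros within `κ` mean spacings of `ρ + b m` mean spacings differs
from `2 κ` by at most `ε`. -/
theorem result :
    (∀ (k : ℕ) (c h κ : Fin k → ℝ), (∀ i, 0 < c i ∧ (∀ n : ℕ, c i ≠ n) ∧ 0 < h i ∧ 0 < κ i) →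
      ∀ ε : ℝ, 0 < ε → ∃ M₀ : ℕ, ∀ M : ℕ, M₀ ≤ M → ∃ T₀ : ℝ, 10 ≤ T₀ ∧ ∀ T : ℝ, T₀ ≤ T →
        |1 / (M : ℝ) ^ k * ∑ m : Fin k → Fin M,
          corr T κ (fun i => h i * (((m i : ℕ) + 1 : ℕ) : ℝ) ^ c i) (fun s => (zmult s : ℝ)) /
            N₀ T - ∏ i, 2 * κ i| ≤ ε) ∧
    (∀ (k : ℕ) (κ : Fin k → ℝ) (b : Fin k → ℕ → ℝ), (∀ i, 0 < κ i ∧ SmallSums (b i)) →
      ∀ ε : ℝ, 0 < ε → ∃ M₀ : ℕ, ∀ M : ℕ, M₀ ≤ M → ∃ T₀ : ℝ, 10 ≤ T₀ ∧ ∀ T : ℝ, T₀ ≤ T →
        ∀ w : ℂ → ℝ, (∀ s ∈ ZZ T, 0 ≤ w s ∧ w s ≤ zmult s) →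
        |1 / (M : ℝ) ^ k * ∑ m : Fin k → Fin M, corr T κ (fun i => b i (m i)) w -
          (∏ i, 2 * κ i) * total T w| ≤ ε * N₀ T) ∧
    (∀ (κ : ℝ) (b : ℕ → ℝ), 0 < κ → SmallSums b → ∀ ε : ℝ, 0 < ε →
      ∃ M₀ : ℕ, ∀ M : ℕ, M₀ ≤ M → ∃ T₀ : ℝ, 10 ≤ T₀ ∧ ∀ T : ℝ, T₀ ≤ T →
        total T (fun s => if ε < |1 / (M : ℝ) * ∑ m ∈ Finset.range M,
          total T (fun s' => if |(s'.im - s.im) * Real.log T / (2 * Real.pi) - b m| ≤ κ then
            (zmult s' : ℝ) else 0) - 2 * κ| then (zmult s : ℝ) else 0) ≤ ε * N₀ T) ∧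
    (∀ c h : ℝ, 0 < c → (∀ n : ℕ, c ≠ n) → 0 < h →
      SmallSums fun m => h * ((m + 1 : ℕ) : ℝ) ^ c) ∧
    (∀ (T : ℝ) (k : ℕ) (κ y : Fin k → ℝ), (ZZ T).Finite ∧ (tuples T κ y).Finite) := by
  refine ⟨fun k c h κ hh ε hε => ?_, fun k κ b hh ε hε => general κ b (fun i => (hh i).1)
    (fun i => (hh i).2) ε hε, fun κ b hκ hb ε hε => almost_every κ b hκ hb ε hε,
    fun c h hc hcn hh => Hexp_pow c h hc hcn hh,
    fun T k κ y => ⟨ZZ_finite T, tuples_finite T κ y⟩⟩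
  exact all_zeros κ (fun i m => h i * ((m + 1 : ℕ) : ℝ) ^ c i) (fun i => (hh i).2.2.2)
    (fun i => Hexp_pow (c i) (h i) (hh i).1 (hh i).2.1 (hh i).2.2.1) ε hε

end Pool.Agent.Results.MP_67227b_nt.KLevelRealPowers
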