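import Pool.Agent.Helper271.AlmostShift
import Pool.Agent.H295R2.SI.Fin
import Pool.Agent.H370R2.DirGood
import Pool.Agent.H370R2.Expl1

/-!
# Correlations of simple critical zeros at `k` of many places, in almost all intervals `(t, t + H]`,
`H ≥ T ^ η`, `η ≥ 0.106`

No hypothesis is assumed.  For `0 < h ≤ 1` put `c h = R0 / h + h (cMT⁻¹ - R0)`, with the
Montgomery-Taylor constant `cMT⁻¹ = 1.3274…` and `R0 = 1.0061…`, and `p h = 2 - c h`, so that
`p 1 = 0.6725…`; `p h > 0` for `h ≥ 0.553`.  Let `n(F; t)` be the number of simple zeros on the critical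
line of a primitive Dirichlet L-function `F` (modulus `1`: zeta) in a window of `g` mean spacings at `t`.
Let `0 < η < 1` and `λ = (1 + η) / 2`; `p λ > 0` for `η ≥ 0.106`.

For all `t ∈ [T, 2T]` outside a set of measure `T ^ (1 - δ)` the following holds in ALL intervals
`(t, t + H]`, `T ^ η ≤ H ≤ T / 8`: among any `M` places (L-function, shift `≤ C H`) there are `k` different
ones for which the mean value of `n(F₁; u + b₁) ⋯ n(F_k; u + b_k)` over `u` in the interval is at least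
`(p(λ) ^ k - ε) g ^ k`.

Proof.  In almost all short intervals the trace inequality for the zeros may use frequencies up to
`λ log T` (`Y763.PS.avg_almost`: the counts of the simple critical zeros in cells, truncated at
`(1 + ε) λ g`, have average at least `(p(λ) - ε) g`, at every shift).  Then the inequality of
power means is applied to the sum of the truncated counts over the places.
-/

open Filter Topology Complex MeasureTheory

namespace Pool.Agent.Results.MP_67227b_nt.PlacesAlmostAllIntervals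

/-- `1/2 + i x` is a simple zero of `F` -/
def Simple (F : ℂ → ℂ) (x : ℝ) : Prop :=
  F (1 / 2 + x * I) = 0 ∧ analyticOrderNatAt F (1 / 2 + x * I) = 1

/-- the number of the `x ∈ (t, t + 2πg / log T]` such that `1/2 + i x` is a simple zero of `F`: the
number of simple zeros on the critical line in a window of `g` mean spacings `2π / log T` -/
noncomputable def n (F : ℂ → ℂ) (T g t : ℝ) : ℕ :=
  {x : ℝ | t < x ∧ x ≤ t + g * (2 * Real.pi / Real.log T) ∧ Simple F x}.ncard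

/-- the Montgomery-Taylor constant -/
noncomputable def cMT : ℝ :=
  Real.sqrt 2 * Real.tan (1 / Real.sqrt 2) / (1 + Real.tan (1 / Real.sqrt 2) / Real.sqrt 2)

/-- the mean square of the Montgomery-Taylor window, `1.0061...` -/
noncomputable def R0 : ℝ :=
  (1 + Real.sin (Real.sqrt 2) / Real.sqrt 2) / (4 * Real.sin (1 / Real.sqrt 2) ^ 2)

/-- the constant for frequencies up to `h log T`; `c 1 = cMT⁻¹ = 1.3274...` -/
noncomputable def c (h : ℝ) : ℝ := R0 / h + h * (cMT⁻¹ - R0)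

/-- the proportion -/
noncomputable def p (h : ℝ) : ℝ := 2 - c h

/-- modulus `1`: the Riemann zeta function -/
theorem zeta_case (χ : DirichletCharacter ℂ 1) :
    χ.IsPrimitive ∧ DirichletCharacter.LFunction χ = riemannZeta := by
  refine ⟨?_, DirichletCharacter.LFunction_modOne_eq⟩
  rw [DirichletCharacter.level_one' χ rfl]
  exact DirichletCharacter.isPrimitive_one_level_one

/-- the sets of zeros which are counted are finite -/
theorem n_finite {q : ℕ} [NeZero q] (χ : DirichletCharacter ℂ q) (hχ : χ.IsPrimitive) (t v : ℝ)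
    (ht : 0 < t) : {x : ℝ | t < x ∧ x ≤ v ∧ Simple (DirichletCharacter.LFunction χ) x}.Finite := by
  have hinj : Function.Injective fun x : ℝ => (1 / 2 + x * I : ℂ) := by
    intro a b hab
    have := congrArg Complex.im hab
    simpa using this
  refine Set.Finite.of_finite_image ((H370.zset_finite' (H370.good_dirichlet χ hχ) t v ht).subset ?_)
    hinj.injOn
  rintro s ⟨x, ⟨h1, h2, h3, -⟩, rfl⟩
  simp only [H370.zset, Set.mem_ofPred_eq]
  refine ⟨?_, ?_, ?_, ?_, h3⟩ <;> simp <;> first | assumption | norm_num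

lemma c_eq {h : ℝ} : c h = H295Iso.c0 h := by
  have h1 : cMT⁻¹ = H370.cMTinv := H370.cMTinv_eq
  have h2 := H228SI.constS 1 one_pos le_rfl
  have h4 : Real.sqrt 2 / 2 = 1 / Real.sqrt 2 := by
    rw [div_eq_div_iff (by norm_num) (by positivity), Real.mul_self_sqrt (by norm_num), one_mul]
  have h3 : H295SI.RS (Real.sqrt 2) 0 = R0 := by
    unfold H295SI.RS R0
    have hs : Real.sqrt 2 ^ 2 = 2 := Real.sq_sqrt (by norm_num)
    rw [if_pos (by norm_num), hs, h4]
    simp only [abs_zero, sub_zero, mul_zero, Real.cos_zero, mul_one]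
    ring
  have h5 : H295SI.cc 1 = H370.cMTinv := by
    unfold H295SI.cc H370.cMTinv
    rfl
  rw [mul_one, h5] at h2
  unfold c H295Iso.c0 H295SI.cR
  unfold H295SI.cR at h2
  rw [h3] at h2 ⊢
  rw [h1, ← h2]
  ring

lemma cMT_num : cMT⁻¹ ≤ 1.327503 := by
  have h1 : cMT⁻¹ = H370.cMTinv := H370.cMTinv_eq
  rw [h1]
  exact H370.Expl.cMTinv_num

lemma R0_num : R0 ≤ 1.00614 := by
  obtain ⟨h1, h2⟩ := H370.Expl.exp_num
  rw [abs_le] at h1 h2
  set S : ℝ := Real.sqrt 2 * Real.sin (1 / Real.sqrt 2) with hS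
  set Q : ℝ := Real.cos (1 / Real.sqrt 2) with hQ
  have hs : Real.sqrt 2 ^ 2 = 2 := Real.sq_sqrt (by norm_num)
  have hs0 : Real.sqrt 2 ≠ 0 := by positivity
  have h3 : Real.sin (Real.sqrt 2) / Real.sqrt 2 = S * Q := by
    have e : Real.sqrt 2 = 2 * (1 / Real.sqrt 2) := by
      field_simp
      exact hs
    have e2 : Real.sin (Real.sqrt 2) = 2 * Real.sin (1 / Real.sqrt 2) * Q := by
      conv_lhs => rw [e]
      rw [Real.sin_two_mul]
    rw [e2, hS, div_eq_iff hs0]
    have : Real.sqrt 2 * Real.sin (1 / Real.sqrt 2) * Q * Real.sqrt 2 =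
        Real.sqrt 2 ^ 2 * Real.sin (1 / Real.sqrt 2) * Q := by ring
    rw [this, hs]
  have h4 : 4 * Real.sin (1 / Real.sqrt 2) ^ 2 = 2 * S ^ 2 := by
    rw [hS, mul_pow, hs]; ring
  unfold R0
  rw [h3, h4]
  have hSl : 0.918722 ≤ S := by norm_num at h2 ⊢; linarith [h2.1]
  have hSu : S ≤ 0.918729 := by norm_num at h2 ⊢; linarith [h2.2]
  have hQl : 0.760241 ≤ Q := by norm_num at h1 ⊢; linarith [h1.1]
  have hQu : Q ≤ 0.760246 := by norm_num at h1 ⊢; linarith [h1.2]
  have hS2 : 0 < 2 * S ^ 2 := by positivity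
  rw [div_le_iff₀ hS2]
  nlinarith

lemma c_le {h : ℝ} (h0 : 0 < h) (hh1 : h ≤ 1) :
    h * c h ≤ 1.00614 * (1 - h ^ 2) + 1.327503 * h ^ 2 := by
  have h2 := R0_num
  have h3 := cMT_num
  have e : h * c h = R0 * (1 - h ^ 2) + cMT⁻¹ * h ^ 2 := by
    unfold c
    field_simp
    ring
  rw [e]
  have h4 : 0 ≤ 1 - h ^ 2 := by nlinarith
  exact add_le_add (mul_le_mul_of_nonneg_right h2 h4)
    (mul_le_mul_of_nonneg_right h3 (by positivity))

/-- the proportion is positive for `h ≥ 0.553` -/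
lemma p_pos {h : ℝ} (hh : 0.553 ≤ h) (hh1 : h ≤ 1) : 0 < p h := by
  norm_num at hh
  have h0 : 0 < h := by linarith
  have h1 := c_le h0 hh1
  norm_num at h1
  have h2 : 0 < h * p h := by
    have e : h * p h = 2 * h - h * c h := by unfold p; ring
    rw [e]
    nlinarith [mul_nonneg (sub_nonneg.2 hh) (sub_nonneg.2 hh1)]
  exact (pos_iff_pos_of_mul_pos h2).1 h0

/-- the proportion for `h = 3/4` -/
lemma p_num : 0.417 ≤ p (3 / 4) := by
  have h1 := c_le (h := 3 / 4) (by norm_num) (by norm_num)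
  norm_num at h1 ⊢
  unfold p
  linarith

theorem result :
    -- many places
    (∀ (k : ℕ) (η ε C : ℝ), 0 < η → η < 1 → 0 < p ((1 + η) / 2) → 0 < ε → 0 ≤ C →
      ∃ M : ℕ, ∃ g : ℝ, 0 < g ∧
      ∀ (r : ℕ) (q : Fin r → ℕ) [∀ i, NeZero (q i)] (χ : ∀ i, DirichletCharacter ℂ (q i)),
        (∀ i, (χ i).IsPrimitive) → ∃ δ T₀ : ℝ, 0 < δ ∧ 10 ≤ T₀ ∧ ∀ T : ℝ, T₀ ≤ T →
      ∃ E : Set ℝ, volume E ≤ ENNReal.ofReal (T ^ (1 - δ)) ∧
      ∀ t : ℝ, T ≤ t → t ≤ 2 * T → t ∉ E → ∀ H : ℝ, T ^ η ≤ H → H ≤ T / 8 →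
      ∀ m : ℕ, M ≤ m → ∀ (c : Fin m → Fin r) (b : Fin m → ℝ),
        (∀ i, 0 ≤ b i ∧ b i ≤ C * H ∧ b i ≤ T) →
      ∃ a : Fin k → Fin m, Function.Injective a ∧
        (p ((1 + η) / 2) ^ k - ε) * (g ^ k * H) ≤
          ∫ u in t..(t + H), ∏ i, (n (DirichletCharacter.LFunction (χ (c (a i)))) T g (u + b (a i)) : ℝ)) ∧
    -- the constant
    (∀ η : ℝ, 0.106 ≤ η → η ≤ 1 → 0 < p ((1 + η) / 2)) ∧ 0.417 ≤ p ((1 + 1 / 2) / 2) := by
  refine ⟨?_, ?_, ?_⟩
  · intro k η ε C hη0 hη1 hp hε hC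
    unfold p at hp ⊢
    rw [c_eq] at hp ⊢
    obtain ⟨M, g, h1, h3⟩ := Pool.Agent.Helper271.AlmostShift.contA k hη0 hη1 hp hε hC
    refine ⟨M, g, h1, fun r q _ χ hχ => ?_⟩
    obtain ⟨δ, hδ, T₀, hT₀, h4⟩ := h3 r (fun i => DirichletCharacter.LFunction (χ i))
      (fun i => H370.good_dirichlet (χ i) (hχ i)) (fun i => Pool.Agent.Y763.PS.alm_prim (χ i) (hχ i))
    refine ⟨δ, T₀, hδ, hT₀, fun T hT => ?_⟩
    obtain ⟨E, hE, h5⟩ := h4 T hT
    refine ⟨E, hE, fun t ht1 ht2 ht3 H hH1 hH2 m hm c b hb => ?_⟩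
    obtain ⟨a, ha, h6⟩ := h5 t ht1 ht2 ht3 H hH1 hH2 m hm c b hb
    exact ⟨a, ha, h6⟩
  · intro η h1 h2
    norm_num at h1
    exact p_pos (by norm_num; linarith) (by linarith)
  · have e : ((1 : ℝ) + 1 / 2) / 2 = 3 / 4 := by norm_num
    rw [e]
    exact p_num

end Pool.Agent.Results.MP_67227b_nt.PlacesAlmostAllIntervals
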